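import Pool.Agent.H964.CW.Defs

/-! # Project CW (helper964): statements of the tasks, part 1: lower tail -/

set_option autoImplicit false

open MeasureTheory ProbabilityTheory Filter Finset

namespace Pool.Agent.H964.CW

open Pool.Agent.H964.QC

/-- TOR2: the torus, explicit form. -/
def S_TOR2 : Prop := ∃ C0 : ℝ, 1 ≤ C0 ∧ ∀ (N0 M : ℕ) [NeZero M], M = 4 * N0 + 4 →
  ∃ (W : Wlk (ZMod M × ZMod M) C0 N0) (φ : ℤ × ℤ → ZMod M × ZMod M) (lft : ZMod M × ZMod M → ℤ × ℤ),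
  IsTor W ∧ Function.Injective lft ∧
  (∀ z : ℤ × ℤ, |z.1| + |z.2| ≤ N0 → lft (φ z) = z) ∧
  (∀ z v, W.K 1 (φ z) v = 1 / 4 * ∑ e : Fin 4, if φ (z + stp e) = v then (1 : ℝ) else 0) ∧
  W.cls 0 (φ 0) ∧ W.d (φ 0) = 0

/-- NB: overlaps of weights that evolve with a drift. -/
def S_NB : Prop := ∀ (C0 : ℝ) (N0 M : ℕ) [NeZero M] (W : Wlk (ZMod M × ZMod M) C0 N0), IsTor W →
  ∀ (A : ℕ → ℝ) (a0 : ℝ) (T n : ℕ) (u : ZMod M × ZMod M → ℝ), 0 ≤ a0 → a0 ≤ 1 / 2 → (∀ j, |A j| ≤ a0) →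
  n ≤ T → n ≤ N0 → (∀ z, 0 ≤ u z) →
  (∀ z, 0 ≤ dw W A T u n z) ∧
  (∑ z, (dw W A T u n z) ^ 2 ≤ (∑ z, u z) ^ 2 * (rr n / (1 - a0 ^ 2))) ∧
  (1 ≤ n → ∑ z, (dw W A T u n z) ^ 2 ≤ ov W u ((n + 1) / 2) + (2 * a0) ^ n * ∑ z, (u z) ^ 2)

/-- DZB: basic properties of the fields with drift and killing. -/
def S_DZB : Prop := ∀ (C0 : ℝ) (N0 M : ℕ) [NeZero M] (W : Wlk (ZMod M × ZMod M) C0 N0), IsTor W →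
  ∀ (A : ℕ → ℝ) (χ : ℕ → ZMod M × ZMod M → ℝ), (∀ j, |A j| ≤ 1) → (∀ j z, 0 ≤ χ j z) → (∀ j z, χ j z ≤ 1) →
  (∀ (x : ℕ → ZMod M × ZMod M → ℝ), (∀ n v, -1 < x n v) → ∀ j y, 0 ≤ dz W A χ x j y ∧
    dz W A χ x j y ≤ dz W A (fun _ _ => 1) x j y) ∧
  (∀ j y, Measurable (fun x : ℕ → ZMod M × ZMod M → ℝ => dz W A χ x j y)) ∧
  (∀ (x x' : ℕ → ZMod M × ZMod M → ℝ) (T : ℕ) (y : ZMod M × ZMod M),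
    (∀ j z, j < T → χ j z ≠ 0 → x (j + 1) z = x' (j + 1) z) → dz W A χ x T y = dz W A χ x' T y) ∧
  (∀ (Ω : Type) [MeasurableSpace Ω] (P : Measure Ω) [IsProbabilityMeasure P] (s2 κ : ℝ)
    (η : ℕ → ZMod M × ZMod M → Ω → ℝ), Noise P s2 κ η → ∀ j y,
    MemLp (fun ω => dz W A χ (cfg η ω) j y) 4 P ∧
    ∫ ω, dz W A χ (cfg η ω) j y ∂P = dz W A χ (fun _ _ => 0) j y)

/-- DSM: second moment of the partition function with drift. -/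
def S_DSM : Prop := S_NB → S_DZB → S_IND → ∀ (C0 : ℝ) (N0 M : ℕ) [NeZero M] (W : Wlk (ZMod M × ZMod M) C0 N0),
  IsTor W → ∀ (A : ℕ → ℝ) (a0 : ℝ) (T : ℕ) (u : ZMod M × ZMod M → ℝ), 0 ≤ a0 → a0 ≤ 1 / 2 →
  (∀ j, |A j| ≤ a0) → T ≤ N0 → (∀ z, 0 ≤ u z) →
  ∀ (Ω : Type) [MeasurableSpace Ω] (P : Measure Ω) [IsProbabilityMeasure P] (s2 κ s' : ℝ)
    (η : ℕ → ZMod M × ZMod M → Ω → ℝ), 0 ≤ s2 → Noise P s2 κ η → s' = s2 / (1 - a0 ^ 2) →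
  ∫ ω, (∑ y, u y * dz W A (fun _ _ => 1) (cfg η ω) T y) ^ 2 ∂P ≤
    (∑ y, u y) ^ 2 + s' * UU s' T * ∑ n ∈ Finset.Icc 1 T, bb W a0 u n

/-- CMP: comparison of the fields with and without drift. -/
def S_CMP : Prop := ∀ (C0 : ℝ) (N0 M : ℕ) [NeZero M] (W : Wlk (ZMod M × ZMod M) C0 N0), IsTor W →
  ∀ (A H : ℕ → ℝ) (x0 : ℝ) (χ x : ℕ → ZMod M × ZMod M → ℝ), A 0 = 0 → Monotone A → (∀ j, A j ≤ 1 / 2) →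
  (∀ j z, 0 ≤ χ j z) → (∀ j z, χ j z ≤ 1) → (∀ j z, χ j z ≠ 0 → (X1 z : ℝ) - x0 ≤ H j) →
  (∀ n v, -1 < x n v) → ∀ (j : ℕ) (y : ZMod M × ZMod M), |X1 y| + j ≤ 2 * N0 →
  dz W A χ x j y ≤ Real.exp ((∑ i ∈ Finset.range j, (A (i + 1) - A i) * H i) - A j * ((X1 y : ℝ) - x0)) *
    Zr W x j y

/-- SUR: the walk with drift stays in the tube. -/
def S_SUR : Prop := ∀ (C0 : ℝ) (N0 M : ℕ) [NeZero M] (W : Wlk (ZMod M × ZMod M) C0 N0), IsTor W →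
  ∀ (A c b : ℕ → ℝ) (χ : ℕ → ZMod M × ZMod M → ℝ), (∀ j, |A j| ≤ 1) → (∀ j, c j = c (j + 1) + A (j + 1)) →
  Antitone b → (∀ j, 0 < b j) → (∀ j z, 0 ≤ χ j z) → (∀ j z, |(X1 z : ℝ) - c j| < b j → χ j z = 1) →
  ∀ (j : ℕ) (y : ZMod M × ZMod M), |X1 y| + j ≤ 2 * N0 →
  1 - (((X1 y : ℝ) - c j) / b j) ^ 2 - ∑ i ∈ Finset.range j, 1 / (b i) ^ 2 ≤ dz W A χ (fun _ _ => 0) j y

/-- PRD: independence of functions of disjoint sets of sites. -/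
def S_PRD : Prop := ∀ (V : Type) [Fintype V] [DecidableEq V] (Ω : Type) [MeasurableSpace Ω] (P : Measure Ω)
  [IsProbabilityMeasure P] (s2 κ : ℝ) (η : ℕ → V → Ω → ℝ), Noise P s2 κ η →
  ∀ (m : ℕ) (F : Fin m → (ℕ → V → ℝ) → ℝ) (S : Fin m → Finset (ℕ × V)) (a : Fin m → ℝ),
  (∀ i, Measurable (F i)) →
  (∀ i (x x' : ℕ → V → ℝ), (∀ n v, (n, v) ∈ S i → x n v = x' n v) → F i x = F i x') →
  (∀ i j, i ≠ j → Disjoint (S i) (S j)) →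
  P.real {ω | ∀ i, F i (cfg η ω) < a i} = ∏ i, P.real {ω | F i (cfg η ω) < a i}

/-- PZ: second moment lower bound for probabilities. -/
def S_PZ : Prop := ∀ (Ω : Type) [MeasurableSpace Ω] (P : Measure Ω) [IsProbabilityMeasure P] (Q : Ω → ℝ)
  (m D : ℝ), MemLp Q 2 P → (∀ ω, 0 ≤ Q ω) → 0 < m → 1 ≤ D → m / 2 ≤ ∫ ω, Q ω ∂P →
  ∫ ω, Q ω ^ 2 ∂P ≤ D * m ^ 2 → P.real {ω | Q ω < m / 4} ≤ 1 - 1 / (16 * D)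

/-- LTC: the core of the lower tail estimate: `m` separated strips. -/
def S_LTC : Prop := S_DZB → S_DSM → S_NB → S_IND → S_MEAS → S_CMP → S_SUR → S_PRD → S_PZ → ∃ C : ℝ, 1 ≤ C ∧
  ∀ (C0 : ℝ) (N0 M : ℕ) [NeZero M] (W : Wlk (ZMod M × ZMod M) C0 N0), IsTor W →
  ∀ (Ω : Type) [MeasurableSpace Ω] (P : Measure Ω) [IsProbabilityMeasure P] (s2 κ s' : ℝ)
    (η : ℕ → ZMod M × ZMod M → Ω → ℝ) (w : ZMod M × ZMod M → ℝ) (t T m a : ℕ) (lo hi : Fin m → ℤ)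
    (Lg a0 μ0 D : ℝ), 0 ≤ s2 → Noise P s2 κ η → 1 ≤ T → 1 ≤ m → 1 ≤ a → t + T ≤ N0 →
  (∀ z, 0 ≤ w z) → (∀ z, w z ≠ 0 → |X1 z| ≤ t) → (∀ i, lo i ≤ hi i) → (∀ i j, i < j → hi i + a ≤ lo j) →
  Lg = Real.log (2 + 64 * (T : ℝ) / (a : ℝ) ^ 2) → 80 * m * Real.sqrt Lg / a ≤ a0 → a0 ≤ 1 / 2 →
  s' = s2 / (1 - a0 ^ 2) → 0 < μ0 → (∀ i, μ0 ≤ ∑ z, strip w (lo i) (hi i) z) → 1 ≤ D →
  (∀ i, s' * UU s' T * ∑ n ∈ Finset.Icc 1 T, bb W a0 (strip w (lo i) (hi i)) n ≤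
    (D - 1) * (∑ z, strip w (lo i) (hi i) z) ^ 2) →
  P.real {ω | ∑ z, w z * Zr W (cfg η ω) T z < μ0 / 4 * Real.exp (-(C * (m : ℝ) ^ 2 * Lg ^ 2))} ≤
    (1 - 1 / (16 * D)) ^ m

/-- QNT: separated intervals with mass. -/
def S_QNT : Prop := ∀ (f : ℤ → ℝ) (S : Finset ℤ) (m a : ℕ) (F : ℝ), 1 ≤ m → 1 ≤ a → (∀ x, 0 ≤ f x) →
  (∀ x, x ∉ S → f x = 0) → F = ∑ x ∈ S, f x → 0 < F →
  (∀ y : ℤ, ∑ x ∈ Finset.Ico y (y + a), f x ≤ F / (4 * m)) →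
  ∃ lo hi : Fin m → ℤ, (∀ i, lo i ≤ hi i) ∧ (∀ i j, i < j → hi i + a ≤ lo j) ∧
    ∀ i, F / (4 * m) ≤ ∑ x ∈ Finset.Icc (lo i) (hi i), f x

/-- BOX: the mass of a box is bounded by the overlap. -/
def S_BOX : Prop := S_RR → S_TORA → ∀ (C0 : ℝ) (N0 M : ℕ) [NeZero M] (W : Wlk (ZMod M × ZMod M) C0 N0),
  IsTor W → ∀ (u : ZMod M × ZMod M → ℝ) (t n a : ℕ) (p q : ℤ), (∀ z, 0 ≤ u z) →
  (∀ z, u z ≠ 0 → W.cls t z) → 1 ≤ n → n ≤ N0 → a ^ 2 ≤ n →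
  (∑ z, if (p ≤ X1 z ∧ X1 z < p + a) ∧ (q ≤ X2 z ∧ X2 z < q + a) then u z else 0) ^ 2 ≤ 8 * n * ov W u n

/-- SWP: exchange of the coordinates. -/
def S_SWP : Prop := ∀ (C0 : ℝ) (N0 M : ℕ) [NeZero M] (W : Wlk (ZMod M × ZMod M) C0 N0), IsTor W →
  (∀ (x : ℕ → ZMod M × ZMod M → ℝ) (w : ZMod M × ZMod M → ℝ) (T : ℕ),
    ∑ v, w v * Zr W x T v =
      ∑ v : ZMod M × ZMod M, w v.swap * Zr W (fun (n : ℕ) (v : ZMod M × ZMod M) => x n v.swap) T v) ∧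
  (∀ (w : ZMod M × ZMod M → ℝ) (n : ℕ), ov W (fun v : ZMod M × ZMod M => w v.swap) n = ov W w n) ∧
  (∀ (Ω : Type) [MeasurableSpace Ω] (P : Measure Ω) [IsProbabilityMeasure P] (s2 κ : ℝ)
    (η : ℕ → ZMod M × ZMod M → Ω → ℝ), Noise P s2 κ η → Noise P s2 κ (fun (n : ℕ) (v : ZMod M × ZMod M) => η n v.swap))

/-- LTS: lower tail for good weights, raw form. -/
def S_LTS : Prop := S_LTC → S_DZB → S_DSM → S_NB → S_IND → S_MEAS → S_CMP → S_SUR → S_PRD → S_PZ → S_QNT →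
  S_BOX → S_SWP → S_RR → S_TORA → S_OV → ∀ C0 : ℝ, 1 ≤ C0 → ∃ C : ℝ, 1 ≤ C ∧
  ∀ (N0 M : ℕ) [NeZero M] (W : Wlk (ZMod M × ZMod M) C0 N0), IsTor W →
  ∀ (Ω : Type) [MeasurableSpace Ω] (P : Measure Ω) [IsProbabilityMeasure P] (s2 κ s' : ℝ)
    (η : ℕ → ZMod M × ZMod M → Ω → ℝ) (w : ZMod M × ZMod M → ℝ) (t T m : ℕ) (B Y D1 : ℝ),
  0 < s2 → s2 ≤ 1 / 4 → Noise P s2 κ η → 1 ≤ t → 1 ≤ T → 1 ≤ m → 1 ≤ B → t + T ≤ N0 → Good W t B w →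
  s' = s2 / (1 - s2 ^ 2) → Y = 1 + Real.log B + Real.log (1 + (T : ℝ) / t) + Real.log m →
  0 ≤ D1 → s' * UU s' T ≤ D1 → C * B * (m : ℝ) ^ 5 * Y / s2 ≤ Real.sqrt t →
  P.real {ω | ∑ z, w z * Zr W (cfg η ω) T z < Real.exp (-(C * (m : ℝ) ^ 2 * Y ^ 2))} ≤
    (1 - 1 / (C * (1 + D1 * Y))) ^ m

/-- UUC: the second moment in the critical window. -/
def S_UUC : Prop := S_RR → S_UU → ∀ θ1 : ℝ, 0 ≤ θ1 → ∃ C : ℝ, 1 ≤ C ∧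
  ∀ (s : ℝ) (n : ℕ), 0 < s → s ≤ 1 / C → -θ1 ≤ 1 / s - RR n →
  (s * UU s n ≤ C) ∧ (1 ≤ 1 / s - RR n → s * UU s n ≤ 1 / (1 / s - RR n)) ∧ (∀ k ≤ n, UU s k ≤ UU s n) ∧
  (∀ s', s' = s / (1 - s ^ 2) → s' * UU s' n ≤ C)

/-- LTB: lower tail for good weights. -/
def S_LTB : Prop := ∀ C0 θ1 : ℝ, 1 ≤ C0 → 0 ≤ θ1 → ∃ C : ℝ, 1 ≤ C ∧
  ∀ (N0 M : ℕ) [NeZero M] (W : Wlk (ZMod M × ZMod M) C0 N0), IsTor W →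
  ∀ (Ω : Type) [MeasurableSpace Ω] (P : Measure Ω) [IsProbabilityMeasure P] (s2 κ : ℝ)
    (η : ℕ → ZMod M × ZMod M → Ω → ℝ) (w : ZMod M × ZMod M → ℝ) (t T : ℕ) (B u : ℝ),
  0 < s2 → s2 ≤ 1 / C → Noise P s2 κ η → 1 ≤ t → 1 ≤ B → t + T ≤ N0 → Good W t B w →
  -θ1 ≤ 1 / s2 - RR (t + T) → C * (1 + Real.log B + Real.log (1 + (T : ℝ) / t)) ^ 8 ≤ u →
  C * B * u ^ 2 / s2 ≤ Real.sqrt t →
  P.real {ω | ∑ z, w z * Zr W (cfg η ω) T z < Real.exp (-u)} ≤ Real.exp (-(u ^ (1 / 10 : ℝ)))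

/-- LTB1: from the raw form to the tail form. -/
def S_LTB1 : Prop := S_RR → S_UU → S_UUC →
  (∀ C0 : ℝ, 1 ≤ C0 → ∃ C : ℝ, 1 ≤ C ∧
  ∀ (N0 M : ℕ) [NeZero M] (W : Wlk (ZMod M × ZMod M) C0 N0), IsTor W →
  ∀ (Ω : Type) [MeasurableSpace Ω] (P : Measure Ω) [IsProbabilityMeasure P] (s2 κ s' : ℝ)
    (η : ℕ → ZMod M × ZMod M → Ω → ℝ) (w : ZMod M × ZMod M → ℝ) (t T m : ℕ) (B Y D1 : ℝ),
  0 < s2 → s2 ≤ 1 / 4 → Noise P s2 κ η → 1 ≤ t → 1 ≤ T → 1 ≤ m → 1 ≤ B → t + T ≤ N0 → Good W t B w →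
  s' = s2 / (1 - s2 ^ 2) → Y = 1 + Real.log B + Real.log (1 + (T : ℝ) / t) + Real.log m →
  0 ≤ D1 → s' * UU s' T ≤ D1 → C * B * (m : ℝ) ^ 5 * Y / s2 ≤ Real.sqrt t →
  P.real {ω | ∑ z, w z * Zr W (cfg η ω) T z < Real.exp (-(C * (m : ℝ) ^ 2 * Y ^ 2))} ≤
    (1 - 1 / (C * (1 + D1 * Y))) ^ m) → S_LTB

/-- PTH: following one fixed path. -/
def S_PTH : Prop := ∀ (C0 : ℝ) (N0 M : ℕ) [NeZero M] (W : Wlk (ZMod M × ZMod M) C0 N0), IsTor W →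
  (∀ (x : ℕ → ZMod M × ZMod M → ℝ) (T τ : ℕ) (p : ℕ → ZMod M × ZMod M), (∀ n v, -1 < x n v) →
    (∀ k, k < τ → W.K 1 (p (k + 1)) (p k) = 1 / 4) →
    (1 / 4) ^ τ * (∏ k ∈ Finset.range τ, (1 + x (T + k + 1) (p k))) * Zr W x T (p 0) ≤ Zr W x (T + τ) (p τ)) ∧
  (∀ (y : ZMod M × ZMod M) (τ b : ℕ), Even τ → Even b → b ≤ τ → |X1 y| + τ ≤ 2 * N0 →
    ∃ p : ℕ → ZMod M × ZMod M, p τ = y ∧ (∀ k, k < τ → W.K 1 (p (k + 1)) (p k) = 1 / 4) ∧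
      X1 (p 0) = X1 y + b ∧ X2 (p 0) = X2 y) ∧
  (∀ (Ω : Type) [MeasurableSpace Ω] (P : Measure Ω) [IsProbabilityMeasure P] (s2 κ : ℝ)
    (η : ℕ → ZMod M × ZMod M → Ω → ℝ), NoiseI P s2 κ η → ∀ (T τ : ℕ) (p : ℕ → ZMod M × ZMod M) (u : ℝ),
    P.real {ω | ∏ k ∈ Finset.range τ, (1 + η (T + k + 1) (p k) ω) < Real.exp (-u)} ≤
      Real.exp (τ - u))

/-- LTP: lower tail for the partition function started from a point. -/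
def S_LTP : Prop := (∀ C0 : ℝ, 1 ≤ C0 → ∃ C : ℝ, 1 ≤ C ∧
  ∀ (N0 M : ℕ) [NeZero M] (W : Wlk (ZMod M × ZMod M) C0 N0), IsTor W →
  ∀ (Ω : Type) [MeasurableSpace Ω] (P : Measure Ω) [IsProbabilityMeasure P] (s2 κ : ℝ)
    (η : ℕ → ZMod M × ZMod M → Ω → ℝ) (y : ZMod M × ZMod M) (t T : ℕ) (u : ℝ),
  0 < s2 → NoiseI P s2 κ η → |X1 y| ≤ t → |X2 y| ≤ t → t + T ≤ N0 → s2 * RR T ≤ 1 / 4 →
  C * (1 + Real.log (1 + T)) ^ 8 ≤ u →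
  P.real {ω | Zr W (cfg η ω) T y < Real.exp (-u)} ≤ Real.exp (-(u ^ (1 / 10 : ℝ)))) ∧
  (∀ C0 θ1 : ℝ, 1 ≤ C0 → 0 ≤ θ1 → ∃ C : ℝ, 1 ≤ C ∧
  ∀ (N0 M : ℕ) [NeZero M] (W : Wlk (ZMod M × ZMod M) C0 N0), IsTor W →
  ∀ (Ω : Type) [MeasurableSpace Ω] (P : Measure Ω) [IsProbabilityMeasure P] (s2 κ : ℝ)
    (η : ℕ → ZMod M × ZMod M → Ω → ℝ) (y : ZMod M × ZMod M) (t T : ℕ) (u : ℝ),
  0 < s2 → s2 ≤ 1 / C → NoiseI P s2 κ η → |X1 y| ≤ t → |X2 y| ≤ t → t + T ≤ N0 → -θ1 ≤ 1 / s2 - RR T →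
  (C / s2) ^ 40 ≤ u →
  P.real {ω | Zr W (cfg η ω) T y < Real.exp (-u)} ≤ Real.exp (-(u ^ (1 / 10 : ℝ))))

/-- LTP1: assembly of LTP. -/
def S_LTP1 : Prop := S_LTC → S_DZB → S_DSM → S_NB → S_IND → S_MEAS → S_CMP → S_SUR → S_PRD → S_PZ → S_RR →
  S_UU → S_UUC → S_PTH → S_TORA → S_OV → S_LTP

/-- LAW2: the tilted environment, exponential moments only near the origin. -/
def S_LAW2 : Prop := ∀ (μ : Measure ℝ) [IsProbabilityMeasure μ],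
  (∃ b : ℝ, 0 < b ∧ ∀ t : ℝ, |t| ≤ b → Integrable (fun x : ℝ => Real.exp (t * x)) μ) →
  ∫ x, x ∂μ = 0 → ∫ x, x ^ 2 ∂μ = 1 →
  ∃ κ b0 : ℝ, 1 ≤ κ ∧ 0 < b0 ∧ ∀ b, 0 ≤ b → b ≤ b0 →
    Integrable (fun x => (Real.exp (b * x - Lam μ b) - 1) ^ 4) μ ∧
    ∫ x, (Real.exp (b * x - Lam μ b) - 1) ∂μ = 0 ∧
    ∫ x, (Real.exp (b * x - Lam μ b) - 1) ^ 2 ∂μ = sig2 μ b ∧
    |∫ x, (Real.exp (b * x - Lam μ b) - 1) ^ 3 ∂μ| ≤ κ * sig2 μ b ∧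
    ∫ x, (Real.exp (b * x - Lam μ b) - 1) ^ 4 ∂μ ≤ κ * sig2 μ b ∧
    Integrable (fun x => (1 + (Real.exp (b * x - Lam μ b) - 1))⁻¹) μ ∧
    ∫ x, (1 + (Real.exp (b * x - Lam μ b) - 1))⁻¹ ∂μ ≤ 2 ∧ (0 < b → 0 < sig2 μ b)

/-! ## Moments with a general exponent of the weight function -/

/-- HHg: sums with the weight function, explicit dependence on `g`. -/
def S_HHg : Prop := ∃ C : ℝ, 1 ≤ C ∧ ∀ g : ℝ, 0 < g → g ≤ 1 / 4 →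
  (∀ t : ℕ, Antitone (hh g t)) ∧
  (∀ t T a : ℕ, 1 ≤ t → ∑ k ∈ Finset.Icc 1 T, hh g t k / ((a : ℝ) + k) ≤
    C * (1 / g + Real.log (1 + (T : ℝ) / t)) * hh g t a) ∧
  (∀ t T a : ℕ, 1 ≤ t → hh g t 0 * ∑ k ∈ Finset.Icc 1 T, 1 / ((k : ℝ) * ((a : ℝ) + k)) ≤ C * hh g t a)

/-- THg: the supersolution in the ages. -/
def S_THg : Prop := S_T1 → S_RR → S_HHg → ∀ C0 κ : ℝ, 1 ≤ C0 → 0 ≤ κ → ∃ C : ℝ, 1 ≤ C ∧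
  ∀ (V : Type) [Fintype V] [DecidableEq V] (N0 : ℕ) (W : Wlk V C0 N0)
  (Ω : Type) [MeasurableSpace Ω] (P : Measure Ω) [IsProbabilityMeasure P] (s2 E g : ℝ) (η : ℕ → V → Ω → ℝ)
  (t T : ℕ), 0 < s2 → Noise P s2 κ η → 1 ≤ t → T ≤ N0 → s2 * RR T < 1 → E = 1 / (1 - s2 * RR T) →
  0 < g → g ≤ 1 / 4 → C * s2 * E * (1 / g + Real.log (1 + (T : ℝ) / t)) ≤ 1 →
  ∀ (j a : ℕ) (y v : V), j + a ≤ T → G4 W P η j 0 a y v ≤ 2 * E * hh g t a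

/-- PHg: the mixed correlation. -/
def S_PHg : Prop := S_T1 → S_T3 → S_RR → S_HHg → S_OV → S_THg → ∀ C0 κ : ℝ, 1 ≤ C0 → 0 ≤ κ → ∃ C : ℝ, 1 ≤ C ∧
  ∀ (V : Type) [Fintype V] [DecidableEq V] (N0 : ℕ) (W : Wlk V C0 N0)
  (Ω : Type) [MeasurableSpace Ω] (P : Measure Ω) [IsProbabilityMeasure P] (s2 E g : ℝ) (η : ℕ → V → Ω → ℝ)
  (w : V → ℝ) (t T : ℕ), 0 < s2 → Noise P s2 κ η → 1 ≤ t → T ≤ N0 → s2 * RR T < 1 →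
  E = 1 / (1 - s2 * RR T) → 0 < g → g ≤ 1 / 4 → C * s2 * E * (1 / g + Real.log (1 + (T : ℝ) / t)) ≤ 1 →
  (∀ x, 0 ≤ w x) → ∑ x, w x = 1 →
  ∀ (j : ℕ) (y : V), j ≤ T → N4 W P η w T j 0 y ≤
    C * (s2 * E * (1 / g + Real.log (1 + (T : ℝ) / t))) * E * hh g t (T - j)

/-- F4g: the fourth moment in terms of the overlaps. -/
def S_F4g : Prop := S_M4 → S_T1 → S_T3 → S_OV → S_HHg → S_RR → S_THg → S_PHg →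
  ∀ C0 κ : ℝ, 1 ≤ C0 → 0 ≤ κ → ∃ C : ℝ, 1 ≤ C ∧
  ∀ (V : Type) [Fintype V] [DecidableEq V] (N0 : ℕ) (W : Wlk V C0 N0)
  (Ω : Type) [MeasurableSpace Ω] (P : Measure Ω) [IsProbabilityMeasure P] (s2 E g : ℝ) (η : ℕ → V → Ω → ℝ)
  (w : V → ℝ) (t T : ℕ), 0 < s2 → Noise P s2 κ η → 1 ≤ t → T ≤ N0 → s2 * RR T < 1 →
  E = 1 / (1 - s2 * RR T) → 0 < g → g ≤ 1 / 4 → C * s2 * E * (1 / g + Real.log (1 + (T : ℝ) / t)) ≤ 1 →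
  (∀ x, 0 ≤ w x) → ∑ x, w x = 1 →
  ∫ ω, (XX W w T (cfg η ω) T) ^ 4 ∂P ≤
    C * (s2 * E * (1 / g + Real.log (1 + (T : ℝ) / t)) * (s2 * E) *
        ∑ m ∈ Finset.Icc 1 T, ov W w m * hh g t m
      + s2 * E * ((t : ℝ) + 1) ^ g * ∑ m ∈ Finset.Icc 1 T, ov W w m / m)

/-- GSg: sums of overlaps of good weights with the weight function. -/
def S_GSg : Prop := S_RR → S_OV → ∀ C0 : ℝ, 1 ≤ C0 → ∃ C : ℝ, 1 ≤ C ∧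
  ∀ (V : Type) [Fintype V] [DecidableEq V] (N0 : ℕ) (W : Wlk V C0 N0) (w : V → ℝ) (t T : ℕ) (B g : ℝ),
  1 ≤ t → 1 ≤ B → t + T ≤ N0 → Good W t B w → 0 < g → g ≤ 1 / 4 →
  ∑ m ∈ Finset.Icc 1 T, ov W w m * hh g t m ≤
    C * (B ^ (2 * g) * (1 + Real.log B) + Real.log (1 + (T : ℝ) / t))

/-- BC2: goodness after a block, with the probability of small masses. -/
def S_BC2 : Prop := S_RR → S_OV → S_CLN → S_MEAS → S_M2 → S_DUAL → ∀ C0 κ : ℝ, 1 ≤ C0 → 0 ≤ κ → ∃ C : ℝ, 1 ≤ C ∧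
  ∀ (V : Type) [Fintype V] [DecidableEq V] (N0 : ℕ) (W : Wlk V C0 N0)
  (Ω : Type) [MeasurableSpace Ω] (P : Measure Ω) [IsProbabilityMeasure P] (s2 : ℝ) (η : ℕ → V → Ω → ℝ)
  (w : V → ℝ) (t T : ℕ) (L' B' q : ℝ), 0 < s2 → Noise P s2 κ η → 1 ≤ T → t ≤ T → 4 * (t + T) ≤ N0 →
  L' = 1 / s2 - RR (t + T) → C ≤ L' → 1 ≤ B' → 0 < q → q ≤ 1 →
  (∀ x, 0 ≤ w x) → ∑ x, w x = 1 → (∀ x, w x ≠ 0 → W.cls t x) → ∑ x, w x * W.d x ≤ (t + T : ℕ) →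
  ∑ m ∈ Finset.Icc 1 T, ov W w m ≤ L' →
  P.real {ω | ¬ Good W (t + T) B' (fun z => fwd W (cfg η ω) T w z / ∑ x, fwd W (cfg η ω) T w x)} ≤
    C / (B' * q ^ 2) + P.real {ω | 1 + XX W w T (cfg η ω) T < q}

end Pool.Agent.H964.CW
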