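import Pool.Agent.H964.CW.Stm2

/-! # Project CW (helper964): statements of the tasks, part 3: chain and final theorem -/

set_option autoImplicit false

open MeasureTheory ProbabilityTheory Filter Finset Topology

namespace Pool.Agent.H964.CW

open Pool.Agent.H964.QC

/-- content of MBK without its premises -/
def P_MBK : Prop := ∀ C0 κ c : ℝ, 1 ≤ C0 → 0 ≤ κ → 20 * e0 ≤ c → c ≤ 1 / 40 → ∃ L0 : ℝ, 1 ≤ L0 ∧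
  ∀ (N0 M : ℕ) [NeZero M] (W : Wlk (ZMod M × ZMod M) C0 N0), IsTor W →
  ∀ (Ω : Type) [MeasurableSpace Ω] (P : Measure Ω) [IsProbabilityMeasure P] (s2 : ℝ)
    (η : ℕ → ZMod M × ZMod M → Ω → ℝ) (w : ZMod M × ZMod M → ℝ) (t T : ℕ) (L L' : ℝ), 0 < s2 →
  NoiseI P s2 κ η → L = 1 / s2 - RR t → L' = 1 / s2 - RR (t + T) → L0 ≤ L' →
  (1 / s2) ^ (1 / 20 : ℝ) ≤ RR t → RR (t + T) - RR t ≤ L ^ c + 1 → 4 * (t + T) ≤ N0 →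
  Good W t (Real.exp (L ^ c)) w →
  Sq P (fun ω => lgX W T w (cfg η ω)) 1 ∧
  (L ^ c ≤ RR (t + T) - RR t →
    P.real {ω | ¬ Good W (t + T) (Real.exp (L' ^ e0)) (nw W T w (cfg η ω))} ≤ L ^ (-(3 / 4) : ℝ))

/-- content of DE without its premises -/
def P_DE : Prop := ∀ C0 κ θ1 : ℝ, 1 ≤ C0 → 0 ≤ κ → 0 ≤ θ1 → ∃ C : ℝ, 1 ≤ C ∧
  ∀ (N0 M : ℕ) [NeZero M] (W : Wlk (ZMod M × ZMod M) C0 N0), IsTor W →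
  ∀ (Ω : Type) [MeasurableSpace Ω] (P : Measure Ω) [IsProbabilityMeasure P] (s2 : ℝ)
    (η : ℕ → ZMod M × ZMod M → Ω → ℝ) (w : ZMod M × ZMod M → ℝ) (t N : ℕ) (b : ℝ), 0 < s2 → s2 ≤ 1 / C →
  NoiseI P s2 κ η → (1 / s2) ^ (1 / 20 : ℝ) ≤ RR t → t ≤ N → N ≤ N0 → -θ1 ≤ 1 / s2 - RR N →
  0 ≤ b → b ≤ RR t / 4 → Good W t (Real.exp b) w →
  Sq P (fun ω => lgZ W (N - t) w (cfg η ω)) (C * (1 + b + |1 / s2 - RR t|) ^ 17)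

/-- content of WLD without its premises -/
def P_WLD : Prop := ∀ C0 κ θ1 c : ℝ, 1 ≤ C0 → 0 ≤ κ → 0 ≤ θ1 → e0 ≤ c → c ≤ 1 / 800 → ∃ L0 : ℝ, 1 ≤ L0 ∧
  ∀ (N0 M : ℕ) [NeZero M] (W : Wlk (ZMod M × ZMod M) C0 N0), IsTor W →
  ∀ (Ω : Type) [MeasurableSpace Ω] (P : Measure Ω) [IsProbabilityMeasure P] (s2 : ℝ)
    (η : ℕ → ZMod M × ZMod M → Ω → ℝ) (w : ZMod M × ZMod M → ℝ) (t T N : ℕ) (L L' : ℝ), 0 < s2 →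
  NoiseI P s2 κ η → L = 1 / s2 - RR t → L' = 1 / s2 - RR (t + T) → L0 ≤ L' →
  (1 / s2) ^ (1 / 20 : ℝ) ≤ RR t → RR (t + T) - RR t ≤ L ^ c + L ^ (2 * e0) + 1 →
  L ^ c ≤ RR (t + T) - RR t → t + T ≤ N → 4 * N ≤ N0 → -θ1 ≤ 1 / s2 - RR N →
  Good W t (Real.exp (L ^ c)) w →
  Sq P (fun ω => {w' | ¬ Good W (t + T) (Real.exp (L' ^ (20 * c))) w'}.indicator
    (fun w' => lgZ W (N - (t + T)) w' (cfg η ω)) (nw W T w (sft (N - (t + T)) (cfg η ω)))) (L ^ (-2 : ℝ))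

/-- content of BK1, part on goodness, for the torus -/
def P_GD : Prop := ∀ C0 κ : ℝ, 1 ≤ C0 → 0 ≤ κ → ∃ L0 : ℝ, 1 ≤ L0 ∧
  ∀ (N0 M : ℕ) [NeZero M] (W : Wlk (ZMod M × ZMod M) C0 N0), IsTor W →
  ∀ (Ω : Type) [MeasurableSpace Ω] (P : Measure Ω) [IsProbabilityMeasure P] (s2 : ℝ)
    (η : ℕ → ZMod M × ZMod M → Ω → ℝ) (w : ZMod M × ZMod M → ℝ) (t T : ℕ) (L L' : ℝ), 0 < s2 →
  NoiseI P s2 κ η → L = 1 / s2 - RR t → L' = 1 / s2 - RR (t + T) → L0 ≤ L' →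
  (1 / s2) ^ (1 / 20 : ℝ) ≤ RR t → RR (t + T) - RR t ≤ L ^ (2 * e0) + 1 → 4 * (t + T) ≤ N0 →
  Good W t (Real.exp (L ^ e0)) w → L ^ (2 * e0) ≤ RR (t + T) - RR t →
  P.real {ω | ¬ Good W (t + T) (Real.exp (L' ^ e0)) (nw W T w (cfg η ω))} ≤ L ^ (-(3 / 2) : ℝ)

/-- conclusion of VI -/
def P_VI : Prop := ∀ C0 κ θ1 : ℝ, 1 ≤ C0 → 0 ≤ κ → 0 ≤ θ1 → ∃ L0 : ℝ, 1 ≤ L0 ∧ ∀ L1 : ℝ, L0 ≤ L1 →
  ∃ C : ℝ, 1 ≤ C ∧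
  ∀ (N0 M : ℕ) [NeZero M] (W : Wlk (ZMod M × ZMod M) C0 N0), IsTor W →
  ∀ (Ω : Type) [MeasurableSpace Ω] (P : Measure Ω) [IsProbabilityMeasure P] (s2 : ℝ)
    (η : ℕ → ZMod M × ZMod M → Ω → ℝ) (N t0 : ℕ) (A : ℝ), 0 < s2 → s2 ≤ 1 / C →
  NoiseI P s2 κ η → (1 / s2) ^ (1 / 20 : ℝ) ≤ RR t0 → 4 * N ≤ N0 → -θ1 ≤ 1 / s2 - RR N → 1 ≤ A →
  (∀ (t : ℕ) (w : ZMod M × ZMod M → ℝ) (L : ℝ), t0 < t → t ≤ N → L = 1 / s2 - RR t → L1 ≤ L →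
    Good W t (Real.exp (L ^ e0)) w → Sq P (fun ω => lgZ W (N - t) w (cfg η ω)) (A * (1 + Real.log L) ^ 2)) →
  ∀ (t : ℕ) (w : ZMod M × ZMod M → ℝ) (L : ℝ), t0 ≤ t → t ≤ N → L = 1 / s2 - RR t → L1 ≤ L →
    Good W t (Real.exp (L ^ (20 * e0))) w →
    Sq P (fun ω => lgZ W (N - t) w (cfg η ω)) (C * A * (1 + Real.log L) ^ 2)

/-- VI: induction over the degrees of badness. -/
def S_VI : Prop := S_MK → S_GM → S_MEAS → S_IND → S_DUAL → S_RR → P_MBK → P_DE → P_WLD → P_VI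

/-- STP: one step of the backward induction. -/
def S_STP : Prop := ∀ (V : Type) [Fintype V] [DecidableEq V] (C0 : ℝ) (N0 : ℕ) (W : Wlk V C0 N0)
  (Ω : Type) [MeasurableSpace Ω] (P : Measure Ω) [IsProbabilityMeasure P] (s2 κ : ℝ) (η : ℕ → V → Ω → ℝ)
  (j T : ℕ) (G G' : Set (V → ℝ)) (D' : (V → ℝ) → (ℕ → V → ℝ) → ℝ) (a a' : ℝ), Noise P s2 κ η →
  MeasurableSet G → MeasurableSet G' → (∀ w ∈ G, (∀ x, 0 ≤ w x) ∧ ∑ x, w x = 1) →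
  Measurable (fun p : (V → ℝ) × (ℕ → V → ℝ) => D' p.1 p.2) → (∀ w x, D' w x = D' w (cut j x)) →
  ∃ D : (V → ℝ) → (ℕ → V → ℝ) → ℝ, Measurable (fun p : (V → ℝ) × (ℕ → V → ℝ) => D p.1 p.2) ∧
  (∀ w x, D w x = D w (cut (j + T) x)) ∧
  ∀ w ∈ G, ∀ v lo up Φ β ε m vr : ℝ,
    Sq P (fun ω => lgX W T w (sft j (cfg η ω))) v → 0 ≤ up → 0 ≤ Φ →
    (∀ w' ∈ G', (∀ x, 0 ≤ w' x) → ∑ x, w' x = 1 →
      Sq P (fun ω => D' w' (cfg η ω)) up ∧ ∫ ω, D' w' (cfg η ω) ∂P = 0 ∧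
      lo ≤ ∫ ω, (D' w' (cfg η ω)) ^ 2 ∂P ∧
      Sq P (fun ω => lgZ W j w' (cfg η ω) + a' - D' w' (cfg η ω)) Φ) →
    Sq P (fun ω => G'ᶜ.indicator (fun w' => lgZ W j w' (cfg η ω) + a') (nw W T w (sft j (cfg η ω)))) β →
    m = ∫ ω, lgX W T w (sft j (cfg η ω)) ∂P → |m + a - a'| ≤ ε →
    vr = ∫ ω, (lgX W T w (sft j (cfg η ω)) - m) ^ 2 ∂P →
    MemLp (fun ω => D w (cfg η ω)) 2 P ∧ ∫ ω, D w (cfg η ω) ∂P = 0 ∧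
    ∫ ω, (D w (cfg η ω)) ^ 2 ∂P ≤ vr + up ∧
    (0 ≤ lo → vr + lo * P.real {ω | nw W T w (sft j (cfg η ω)) ∈ G'} ≤ ∫ ω, (D w (cfg η ω)) ^ 2 ∂P) ∧
    vr ≤ ∫ ω, (D w (cfg η ω)) ^ 2 ∂P ∧
    Sq P (fun ω => lgZ W (j + T) w (cfg η ω) + a - D w (cfg η ω)) ((1 + ε) * (Φ + β) + ε + ε ^ 2)

/-- conclusion of CHA -/
def P_CHA : Prop := ∀ C0 κ θ1 : ℝ, 1 ≤ C0 → 0 ≤ κ → 0 ≤ θ1 → ∃ K L1 : ℝ, 1 ≤ K ∧ 1 ≤ L1 ∧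
  ∀ (N0 M : ℕ) [NeZero M] (W : Wlk (ZMod M × ZMod M) C0 N0), IsTor W →
  ∀ (Ω : Type) [MeasurableSpace Ω] (P : Measure Ω) [IsProbabilityMeasure P] (s2 : ℝ)
    (η : ℕ → ZMod M × ZMod M → Ω → ℝ) (N t : ℕ) (L Le : ℝ), 0 < s2 → s2 ≤ 1 / K →
  NoiseI P s2 κ η → 4 * N ≤ N0 → -θ1 ≤ 1 / s2 - RR N → Le = max (1 / s2 - RR N) L1 → t ≤ N →
  (1 / s2) ^ (1 / 20 : ℝ) ≤ RR t → L = 1 / s2 - RR t → L1 ≤ L →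
  ∃ D : (ZMod M × ZMod M → ℝ) → (ℕ → ZMod M × ZMod M → ℝ) → ℝ,
  Measurable (fun p : (ZMod M × ZMod M → ℝ) × (ℕ → ZMod M × ZMod M → ℝ) => D p.1 p.2) ∧
  (∀ w x, D w x = D w (cut (N - t) x)) ∧
  ∀ w, Good W t (Real.exp (L ^ e0)) w →
    Sq P (fun ω => D w (cfg η ω)) (K * Real.log (L / Le)) ∧ ∫ ω, D w (cfg η ω) ∂P = 0 ∧
    1 / K * Real.log (L / Le) - K ≤ ∫ ω, (D w (cfg η ω)) ^ 2 ∂P ∧
    Sq P (fun ω => lgZ W (N - t) w (cfg η ω) + 1 / 2 * Real.log (L / Le) - D w (cfg η ω)) K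

/-- CHA: the backward induction over the blocks. -/
def S_CHA : Prop := S_STP → S_GM → S_MEAS → S_IND → S_RR → S_DUAL → S_BK2 → P_GD → P_DE → P_WLD → P_VI → P_CHA

/-- FB: the first block. -/
def P_FB : Prop := ∀ C0 κ : ℝ, 1 ≤ C0 → 0 ≤ κ → ∃ C : ℝ, 1 ≤ C ∧
  ∀ (N0 M : ℕ) [NeZero M] (W : Wlk (ZMod M × ZMod M) C0 N0), IsTor W →
  ∀ (Ω : Type) [MeasurableSpace Ω] (P : Measure Ω) [IsProbabilityMeasure P] (s2 : ℝ)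
    (η : ℕ → ZMod M × ZMod M → Ω → ℝ) (T : ℕ), 0 < s2 → s2 ≤ 1 / C →
  NoiseI P s2 κ η → W.cls 0 0 → RR T ≤ (1 / s2) ^ (1 / 20 : ℝ) + 1 → 4 * T ≤ N0 →
  Sq P (fun ω => lgX W T (fun x => if x = 0 then 1 else 0) (cfg η ω)) 1 ∧
  ((1 / s2) ^ (1 / 20 : ℝ) ≤ RR T →
    P.real {ω | ¬ Good W T (Real.exp ((1 / s2 - RR T) ^ e0))
      (nw W T (fun x => if x = 0 then 1 else 0) (cfg η ω))} ≤ s2 ^ (9 / 10 : ℝ))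

def S_FB : Prop := S_LTP → S_AP → S_TLI → S_MEAS → S_M2 → S_DUAL → S_RR → S_UU → S_OV → S_BC2 → S_CLN →
  S_IND → P_FB

/-- TRJ: translations and convexity. -/
def S_TRJ : Prop := ∀ (C0 : ℝ) (N0 M : ℕ) [NeZero M] (W : Wlk (ZMod M × ZMod M) C0 N0), IsTor W →
  (∀ (x : ℕ → ZMod M × ZMod M → ℝ) (T : ℕ) (v x0 : ZMod M × ZMod M),
    Zr W x T (v + x0) = Zr W (fun (n : ℕ) (u : ZMod M × ZMod M) => x n (u + x0)) T v) ∧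
  (∀ (Ω : Type) [MeasurableSpace Ω] (P : Measure Ω) [IsProbabilityMeasure P] (s2 κ : ℝ)
    (η : ℕ → ZMod M × ZMod M → Ω → ℝ) (x0 : ZMod M × ZMod M), NoiseI P s2 κ η →
    NoiseI P s2 κ (fun (n : ℕ) (u : ZMod M × ZMod M) => η n (u + x0))) ∧
  (∀ (x : ℕ → ZMod M × ZMod M → ℝ) (n : ℕ) (w : ZMod M × ZMod M → ℝ), (∀ n v, -1 < x n v) →
    (∀ z, 0 ≤ w z) → ∑ z, w z = 1 →
    (lgZ W n w x) ^ 2 ≤ ∑ y, w y * (Real.log (Zr W x n y)) ^ 2 + ∑ y, w y * Zr W x n y)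

/-- MQ2: the main theorem for a general noise. -/
def S_MQ2 : Prop := ∀ C0 κ θ1 : ℝ, 1 ≤ C0 → 0 ≤ κ → 0 ≤ θ1 → ∃ K : ℝ, 1 ≤ K ∧
  ∀ (N0 M : ℕ) [NeZero M] (W : Wlk (ZMod M × ZMod M) C0 N0), IsTor W →
  ∀ (Ω : Type) [MeasurableSpace Ω] (P : Measure Ω) [IsProbabilityMeasure P] (s2 : ℝ)
    (η : ℕ → ZMod M × ZMod M → Ω → ℝ) (N : ℕ), 0 < s2 → s2 ≤ 1 / K →
  NoiseI P s2 κ η → W.cls 0 0 → 4 * N ≤ N0 → -θ1 ≤ 1 / s2 - RR N → 1 / s2 - RR N ≤ θ1 →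
  ∃ D : Ω → ℝ, Sq P D (K * Real.log (1 / s2)) ∧ ∫ ω, D ω ∂P = 0 ∧
    1 / K * Real.log (1 / s2) - K ≤ ∫ ω, (D ω) ^ 2 ∂P ∧
    Sq P (fun ω => Real.log (Zr W (cfg η ω) N 0) + 1 / 2 * Real.log (1 / s2) - D ω) K

/-- FST: the first block and the main theorem. -/
def S_FST : Prop := S_MK → S_GM → S_MEAS → S_IND → S_DUAL → S_RR → S_TRJ → S_AP → P_FB → P_CHA → S_MQ2

/-- FINF: the frozen statement. -/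
def S_FINF : Prop := S_MQ2 → S_TOR2 → S_LAW2 → S_LINK → S_RR → S_MEAS →
  ∀ (μ : Measure ℝ) [IsProbabilityMeasure μ],
    (∃ b : ℝ, 0 < b ∧ ∀ t : ℝ, |t| ≤ b → Integrable (fun x : ℝ => Real.exp (t * x)) μ) →
    ∫ x, x ∂μ = 0 → ∫ x, x ^ 2 ∂μ = 1 →
    ∀ (Λ : ℝ → ℝ), (∀ t : ℝ, Λ t = Real.log (∫ x, Real.exp (t * x) ∂μ)) →
    ∀ (R : ℕ → ℝ), (∀ N : ℕ, R N = ∑ n ∈ Finset.Icc 1 N,
        ((Finset.univ.filter (fun p : (Fin n → Fin 4) × (Fin n → Fin 4) =>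
            ∑ i, (![((1 : ℤ), (0 : ℤ)), (-1, 0), (0, 1), (0, -1)] : Fin 4 → ℤ × ℤ) (p.1 i)
              = ∑ i, (![((1 : ℤ), (0 : ℤ)), (-1, 0), (0, 1), (0, -1)] : Fin 4 → ℤ × ℤ) (p.2 i))).card : ℝ)
          / (16 : ℝ) ^ n) →
    ∀ (θ : ℝ) (β : ℕ → ℝ), (∀ N : ℕ, 0 < β N) → Tendsto β atTop (𝓝 0) →
    Tendsto (fun N : ℕ => ((Real.exp (Λ (2 * β N) - 2 * Λ (β N)) - 1) * R N - 1) * Real.log (N : ℝ))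
      atTop (𝓝 θ) →
    ∀ (Ω : Type) [MeasureSpace Ω] [IsProbabilityMeasure (volume : Measure Ω)]
      (ω : ℕ × (ℤ × ℤ) → Ω → ℝ),
      (∀ p, Measurable (ω p)) → iIndepFun ω (volume : Measure Ω) →
      (∀ p, Measure.map (ω p) (volume : Measure Ω) = μ) →
    ∀ (L : ℕ → Ω → ℝ), (∀ (N : ℕ) (a : Ω), L N a = Real.log ((1 / (4 : ℝ) ^ N) *
        ∑ s : Fin N → Fin 4, Real.exp (∑ n : Fin N,
          (β N * ω ((n : ℕ) + 1, ∑ i ∈ Finset.univ.filter (fun i : Fin N => i ≤ n),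
              (![((1 : ℤ), (0 : ℤ)), (-1, 0), (0, 1), (0, -1)] : Fin 4 → ℤ × ℤ) (s i)) a
            - Λ (β N))))) →
    Tendsto (fun N : ℕ => (∫ a, L N a ∂(volume : Measure Ω)) / Real.log (Real.log (N : ℝ)))
        atTop (𝓝 (-1 / 2)) ∧
      ∃ c C : ℝ, 0 < c ∧ 0 < C ∧ ∀ᶠ N : ℕ in atTop,
        c * Real.log (Real.log (N : ℝ)) ≤ variance (L N) (volume : Measure Ω) ∧
        variance (L N) (volume : Measure Ω) ≤ C * Real.log (Real.log (N : ℝ))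

end Pool.Agent.H964.CW
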