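import Pool.Agent.H964.CW.Stm

/-! # Project CW (helper964): statements of the tasks, part 2: blocks and chain -/

set_option autoImplicit false

open MeasureTheory ProbabilityTheory Filter Finset

namespace Pool.Agent.H964.CW

open Pool.Agent.H964.QC

/-- the small exponent -/
noncomputable def e0 : ℝ := 1 / (40 * 20 ^ 30)

/-- `f` is square integrable with second moment at most `v` -/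
def Sq {Ω : Type} [MeasurableSpace Ω] (P : Measure Ω) (f : Ω → ℝ) (v : ℝ) : Prop :=
  MemLp f 2 P ∧ ∫ ω, f ω ^ 2 ∂P ≤ v

/-- logarithm of the averaged partition function with `n` remaining steps -/
noncomputable def lgZ {V : Type} [Fintype V] [DecidableEq V] {C0 : ℝ} {N0 : ℕ} (W : Wlk V C0 N0) (n : ℕ)
    (w : V → ℝ) (x : ℕ → V → ℝ) : ℝ := Real.log (∑ y, w y * Zr W x n y)

/-- the normalised weight after a block of length `T` with the noise `x` -/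
noncomputable def nw {V : Type} [Fintype V] [DecidableEq V] {C0 : ℝ} {N0 : ℕ} (W : Wlk V C0 N0) (T : ℕ)
    (w : V → ℝ) (x : ℕ → V → ℝ) : V → ℝ := fun z => fwd W x T w z / ∑ y, fwd W x T w y

/-- logarithm of the mass of a block -/
noncomputable def lgX {V : Type} [Fintype V] [DecidableEq V] {C0 : ℝ} {N0 : ℕ} (W : Wlk V C0 N0) (T : ℕ)
    (w : V → ℝ) (x : ℕ → V → ℝ) : ℝ := Real.log (1 + XX W w T x T)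

/-- MK: the Markov property for functions of the new weight and of the remaining layers. -/
def S_MK : Prop := ∀ (V : Type) [Fintype V] [DecidableEq V] (C0 : ℝ) (N0 : ℕ) (W : Wlk V C0 N0)
  (Ω : Type) [MeasurableSpace Ω] (P : Measure Ω) [IsProbabilityMeasure P] (s2 κ : ℝ) (η : ℕ → V → Ω → ℝ)
  (w : V → ℝ) (j T : ℕ), Noise P s2 κ η → (∀ x, 0 ≤ w x) → ∑ x, w x = 1 →
  (∀ x : ℕ → V → ℝ, (∀ n v, -1 < x n v) →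
    (∀ z, 0 ≤ nw W T w (sft j x) z) ∧ ∑ z, nw W T w (sft j x) z = 1 ∧ 0 < 1 + XX W w T (sft j x) T ∧
    lgZ W (j + T) w x = lgX W T w (sft j x) + lgZ W j (nw W T w (sft j x)) x) ∧
  ∀ (S : Set (V → ℝ)) (F : (V → ℝ) → (ℕ → V → ℝ) → ℝ) (v v' : ℝ), MeasurableSet S →
    Measurable (fun p : (V → ℝ) × (ℕ → V → ℝ) => F p.1 p.2) → (∀ w' x, F w' x = F w' (cut j x)) → 0 ≤ v →
    (∀ w' ∈ S, (∀ x, 0 ≤ w' x) → ∑ x, w' x = 1 → (∀ t : ℕ, (∀ x, w x ≠ 0 → W.cls t x) →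
        ∀ x, w' x ≠ 0 → W.cls (t + T) x) →
      Sq P (fun ω => F w' (cfg η ω)) v) →
    Sq P (fun ω => S.indicator (fun w' => F w' (cfg η ω)) (nw W T w (sft j (cfg η ω))))
      (v * P.real {ω | nw W T w (sft j (cfg η ω)) ∈ S}) ∧
    ((∀ w' ∈ S, (∀ x, 0 ≤ w' x) → ∑ x, w' x = 1 → v' ≤ ∫ ω, F w' (cfg η ω) ^ 2 ∂P) →
      v' * P.real {ω | nw W T w (sft j (cfg η ω)) ∈ S} ≤
        ∫ ω, (S.indicator (fun w' => F w' (cfg η ω)) (nw W T w (sft j (cfg η ω)))) ^ 2 ∂P) ∧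
    ((∀ w' ∈ S, (∀ x, 0 ≤ w' x) → ∑ x, w' x = 1 → ∫ ω, F w' (cfg η ω) ∂P = 0) →
      ∀ g : (ℕ → V → ℝ) → ℝ, Measurable g → MemLp (fun ω => g (sft (j + 1) (cfg η ω))) 2 P →
      ∫ ω, g (sft (j + 1) (cfg η ω)) *
        S.indicator (fun w' => F w' (cfg η ω)) (nw W T w (sft j (cfg η ω))) ∂P = 0)

/-- TLI: second moment of a random variable with a stretched exponential tail. -/
def S_TLI : Prop := ∃ C : ℝ, 1 ≤ C ∧ ∀ (Ω : Type) [MeasurableSpace Ω] (P : Measure Ω) [IsProbabilityMeasure P]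
  (Y : Ω → ℝ) (F u0 u1 : ℝ) (A : Set Ω), MemLp Y 4 P → ∫ ω, Y ω ^ 4 ∂P ≤ F → 1 ≤ u0 → u0 ≤ u1 →
  (∀ u, u0 ≤ u → u ≤ u1 → P.real {ω | u < Y ω} ≤ Real.exp (-(u ^ (1 / 10 : ℝ)))) → MeasurableSet A →
  ∫ ω in A, (max (Y ω) 0) ^ 2 ∂P ≤ u0 ^ 2 * P.real A + C * Real.exp (-(u0 ^ (1 / 20 : ℝ))) +
    Real.sqrt F * Real.exp (-(u1 ^ (1 / 10 : ℝ)) / 2)

/-- AP: a priori moment bound. -/
def S_AP : Prop := ∀ C0 θ1 : ℝ, 1 ≤ C0 → 0 ≤ θ1 → ∃ C : ℝ, 1 ≤ C ∧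
  ∀ (N0 M : ℕ) [NeZero M] (W : Wlk (ZMod M × ZMod M) C0 N0), IsTor W →
  ∀ (Ω : Type) [MeasurableSpace Ω] (P : Measure Ω) [IsProbabilityMeasure P] (s2 κ : ℝ)
    (η : ℕ → ZMod M × ZMod M → Ω → ℝ) (w : ZMod M × ZMod M → ℝ) (t T : ℕ), 0 < s2 → s2 ≤ 1 / C →
  NoiseI P s2 κ η → (∀ x, 0 ≤ w x) → ∑ x, w x = 1 → (∀ x, w x ≠ 0 → |X1 x| ≤ t ∧ |X2 x| ≤ t) →
  t + T ≤ N0 → -θ1 ≤ 1 / s2 - RR T →
  MemLp (fun ω => lgZ W T w (cfg η ω)) 4 P ∧ ∫ ω, (lgZ W T w (cfg η ω)) ^ 4 ∂P ≤ (C / s2) ^ 200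

/-- AP1: AP from LTP. -/
def S_AP1 : Prop := S_LTP → S_MEAS → S_IND → S_RR → S_AP

/-- BK1: moments of a block from a good weight. -/
def S_BK1 : Prop := S_RR → S_UU → S_HHg → S_OV → S_GS → S_GSg → S_B2 → S_BC2 → S_F4g → S_THg → S_PHg →
  S_M2 → S_MEAS → S_DUAL → S_CLN → S_M4 → S_T1 → S_T3 → ∀ C0 κ : ℝ, 1 ≤ C0 → 0 ≤ κ → ∃ C L0 : ℝ, 1 ≤ C ∧
  1 ≤ L0 ∧ ∀ (V : Type) [Fintype V] [DecidableEq V] (N0 : ℕ) (W : Wlk V C0 N0)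
  (Ω : Type) [MeasurableSpace Ω] (P : Measure Ω) [IsProbabilityMeasure P] (s2 : ℝ) (η : ℕ → V → Ω → ℝ)
  (w : V → ℝ) (t T : ℕ) (L L' : ℝ), 0 < s2 → Noise P s2 κ η → L = 1 / s2 - RR t →
  L' = 1 / s2 - RR (t + T) → L0 ≤ L' → (1 / s2) ^ (1 / 20 : ℝ) ≤ RR t →
  RR (t + T) - RR t ≤ L ^ (2 * e0) + 1 → 4 * (t + T) ≤ N0 → Good W t (Real.exp (L ^ e0)) w →
  (∫ ω, (XX W w T (cfg η ω) T) ^ 2 ∂P ≤ C * L ^ (2 * e0 - 1)) ∧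
  (∫ ω, (XX W w T (cfg η ω) T) ^ 4 ∂P ≤ C * L ^ (4 * e0 - 2)) ∧
  (L ^ (2 * e0) ≤ RR (t + T) - RR t →
    |∫ ω, (XX W w T (cfg η ω) T) ^ 2 ∂P - Real.log (L / L')| ≤ C * L ^ (e0 - 1) ∧
    P.real {ω | ¬ Good W (t + T) (Real.exp (L' ^ e0)) (nw W T w (cfg η ω))} ≤ L ^ (-(3 / 2) : ℝ))

/-- BK2: logarithm of the mass of a block from a good weight. -/
def S_BK2 : Prop := ∀ C0 κ : ℝ, 1 ≤ C0 → 0 ≤ κ → ∃ C L0 : ℝ, 1 ≤ C ∧ 1 ≤ L0 ∧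
  ∀ (N0 M : ℕ) [NeZero M] (W : Wlk (ZMod M × ZMod M) C0 N0), IsTor W →
  ∀ (Ω : Type) [MeasurableSpace Ω] (P : Measure Ω) [IsProbabilityMeasure P] (s2 : ℝ)
    (η : ℕ → ZMod M × ZMod M → Ω → ℝ) (w : ZMod M × ZMod M → ℝ) (t T : ℕ) (L L' : ℝ), 0 < s2 →
  NoiseI P s2 κ η → L = 1 / s2 - RR t → L' = 1 / s2 - RR (t + T) → L0 ≤ L' →
  (1 / s2) ^ (1 / 20 : ℝ) ≤ RR t → RR (t + T) - RR t ≤ L ^ (2 * e0) + 1 → 4 * (t + T) ≤ N0 →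
  Good W t (Real.exp (L ^ e0)) w →
  Sq P (fun ω => lgX W T w (cfg η ω)) (C * L ^ (2 * e0 - 1)) ∧
  (L ^ (2 * e0) ≤ RR (t + T) - RR t →
    |∫ ω, lgX W T w (cfg η ω) ∂P + 1 / 2 * Real.log (L / L')| ≤ C * L ^ (e0 - 1) ∧
    1 / C * L ^ (2 * e0 - 1) ≤
      ∫ ω, (lgX W T w (cfg η ω) - ∫ ω', lgX W T w (cfg η ω') ∂P) ^ 2 ∂P)

/-- LG: logarithm of a small centred random variable. -/
def S_LG : Prop := ∃ C : ℝ, 1 ≤ C ∧ ∀ (Ω : Type) [MeasurableSpace Ω] (P : Measure Ω) [IsProbabilityMeasure P]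
  (X : Ω → ℝ) (v f τ : ℝ), Measurable X → (∀ ω, -1 < X ω) → Integrable (fun ω => X ω ^ 4) P →
  ∫ ω, X ω ∂P = 0 → ∫ ω, X ω ^ 2 ∂P ≤ v → v ≤ 1 → ∫ ω, X ω ^ 4 ∂P ≤ f → f ≤ 1 → 0 ≤ τ →
  MemLp (fun ω => Real.log (1 + X ω)) 2 P →
  ∫ ω in {ω | X ω < -(1 / 2)}, (Real.log (1 + X ω)) ^ 2 ∂P ≤ τ →
  (∫ ω, (Real.log (1 + X ω)) ^ 2 ∂P ≤ C * v + τ) ∧
  |∫ ω, Real.log (1 + X ω) ∂P + 1 / 2 * ∫ ω, X ω ^ 2 ∂P| ≤ C * (Real.sqrt (v * f) + f + Real.sqrt (f * τ)) ∧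
  ∫ ω, X ω ^ 2 ∂P - C * (Real.sqrt (v * f) + f + v ^ 2 + τ) ≤
    ∫ ω, (Real.log (1 + X ω) - ∫ ω', Real.log (1 + X ω') ∂P) ^ 2 ∂P

/-- BK21: BK2 from BK1 and the lower tail. -/
def S_BK21 : Prop := S_LTB → S_AP → S_TLI → S_LG → S_MEAS → S_M2 → S_DUAL → S_RR → S_IND →
  (∀ C0 κ : ℝ, 1 ≤ C0 → 0 ≤ κ → ∃ C L0 : ℝ, 1 ≤ C ∧
  1 ≤ L0 ∧ ∀ (V : Type) [Fintype V] [DecidableEq V] (N0 : ℕ) (W : Wlk V C0 N0)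
  (Ω : Type) [MeasurableSpace Ω] (P : Measure Ω) [IsProbabilityMeasure P] (s2 : ℝ) (η : ℕ → V → Ω → ℝ)
  (w : V → ℝ) (t T : ℕ) (L L' : ℝ), 0 < s2 → Noise P s2 κ η → L = 1 / s2 - RR t →
  L' = 1 / s2 - RR (t + T) → L0 ≤ L' → (1 / s2) ^ (1 / 20 : ℝ) ≤ RR t →
  RR (t + T) - RR t ≤ L ^ (2 * e0) + 1 → 4 * (t + T) ≤ N0 → Good W t (Real.exp (L ^ e0)) w →
  (∫ ω, (XX W w T (cfg η ω) T) ^ 2 ∂P ≤ C * L ^ (2 * e0 - 1)) ∧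
  (∫ ω, (XX W w T (cfg η ω) T) ^ 4 ∂P ≤ C * L ^ (4 * e0 - 2)) ∧
  (L ^ (2 * e0) ≤ RR (t + T) - RR t →
    |∫ ω, (XX W w T (cfg η ω) T) ^ 2 ∂P - Real.log (L / L')| ≤ C * L ^ (e0 - 1) ∧
    P.real {ω | ¬ Good W (t + T) (Real.exp (L' ^ e0)) (nw W T w (cfg η ω))} ≤ L ^ (-(3 / 2) : ℝ))) → S_BK2

/-- MBK: a block from a mildly bad weight. -/
def S_MBK : Prop := S_LTB → S_AP → S_TLI → S_MEAS → S_M2 → S_DUAL → S_RR → S_UU → S_OV → S_GS → S_BC2 →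
  S_CLN → S_B2 → S_IND →
  ∀ C0 κ c : ℝ, 1 ≤ C0 → 0 ≤ κ → 20 * e0 ≤ c → c ≤ 1 / 40 → ∃ L0 : ℝ, 1 ≤ L0 ∧
  ∀ (N0 M : ℕ) [NeZero M] (W : Wlk (ZMod M × ZMod M) C0 N0), IsTor W →
  ∀ (Ω : Type) [MeasurableSpace Ω] (P : Measure Ω) [IsProbabilityMeasure P] (s2 : ℝ)
    (η : ℕ → ZMod M × ZMod M → Ω → ℝ) (w : ZMod M × ZMod M → ℝ) (t T : ℕ) (L L' : ℝ), 0 < s2 →
  NoiseI P s2 κ η → L = 1 / s2 - RR t → L' = 1 / s2 - RR (t + T) → L0 ≤ L' →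
  (1 / s2) ^ (1 / 20 : ℝ) ≤ RR t → RR (t + T) - RR t ≤ L ^ c + 1 → 4 * (t + T) ≤ N0 →
  Good W t (Real.exp (L ^ c)) w →
  Sq P (fun ω => lgX W T w (cfg η ω)) 1 ∧
  (L ^ c ≤ RR (t + T) - RR t →
    P.real {ω | ¬ Good W (t + T) (Real.exp (L' ^ e0)) (nw W T w (cfg η ω))} ≤ L ^ (-(3 / 4) : ℝ))

/-- WL3: stretched exponential tail of the badness after a block. -/
def S_WL3 : Prop := S_LTB → S_MEAS → S_DUAL → S_RR → S_OV → S_GS → S_BC2 → S_CLN → S_M2 →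
  ∀ C0 κ c : ℝ, 1 ≤ C0 → 0 ≤ κ → e0 ≤ c → c ≤ 1 / 40 → ∃ L0 : ℝ, 1 ≤ L0 ∧
  ∀ (N0 M : ℕ) [NeZero M] (W : Wlk (ZMod M × ZMod M) C0 N0), IsTor W →
  ∀ (Ω : Type) [MeasurableSpace Ω] (P : Measure Ω) [IsProbabilityMeasure P] (s2 : ℝ)
    (η : ℕ → ZMod M × ZMod M → Ω → ℝ) (w : ZMod M × ZMod M → ℝ) (t T : ℕ) (L L' b : ℝ), 0 < s2 →
  NoiseI P s2 κ η → L = 1 / s2 - RR t → L' = 1 / s2 - RR (t + T) → L0 ≤ L' →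
  (1 / s2) ^ (1 / 20 : ℝ) ≤ RR t → RR (t + T) - RR t ≤ L ^ c + L ^ (2 * e0) + 1 →
  L ^ c ≤ RR (t + T) - RR t → 4 * (t + T) ≤ N0 → Good W t (Real.exp (L ^ c)) w →
  L ^ (20 * c) / 4 ≤ b → b ≤ RR t →
  P.real {ω | ¬ Good W (t + T) (Real.exp b) (nw W T w (cfg η ω))} ≤ Real.exp (-(b ^ (1 / 20 : ℝ)))

/-- DE: second moment of the logarithm up to the end of the horizon. -/
def S_DE : Prop := S_LTB → S_AP → S_TLI → S_MEAS → S_RR → S_IND →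
  ∀ C0 κ θ1 : ℝ, 1 ≤ C0 → 0 ≤ κ → 0 ≤ θ1 → ∃ C : ℝ, 1 ≤ C ∧
  ∀ (N0 M : ℕ) [NeZero M] (W : Wlk (ZMod M × ZMod M) C0 N0), IsTor W →
  ∀ (Ω : Type) [MeasurableSpace Ω] (P : Measure Ω) [IsProbabilityMeasure P] (s2 : ℝ)
    (η : ℕ → ZMod M × ZMod M → Ω → ℝ) (w : ZMod M × ZMod M → ℝ) (t N : ℕ) (b : ℝ), 0 < s2 → s2 ≤ 1 / C →
  NoiseI P s2 κ η → (1 / s2) ^ (1 / 20 : ℝ) ≤ RR t → t ≤ N → N ≤ N0 → -θ1 ≤ 1 / s2 - RR N →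
  0 ≤ b → b ≤ RR t / 4 → Good W t (Real.exp b) w →
  Sq P (fun ω => lgZ W (N - t) w (cfg η ω)) (C * (1 + b + |1 / s2 - RR t|) ^ 17)

/-- WLD: the cost of very bad weights after a block. -/
def S_WLD : Prop := S_MK → S_GM → S_AP → S_MEAS → S_RR →
  (∀ C0 κ c : ℝ, 1 ≤ C0 → 0 ≤ κ → e0 ≤ c → c ≤ 1 / 40 → ∃ L0 : ℝ, 1 ≤ L0 ∧
  ∀ (N0 M : ℕ) [NeZero M] (W : Wlk (ZMod M × ZMod M) C0 N0), IsTor W →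
  ∀ (Ω : Type) [MeasurableSpace Ω] (P : Measure Ω) [IsProbabilityMeasure P] (s2 : ℝ)
    (η : ℕ → ZMod M × ZMod M → Ω → ℝ) (w : ZMod M × ZMod M → ℝ) (t T : ℕ) (L L' b : ℝ), 0 < s2 →
  NoiseI P s2 κ η → L = 1 / s2 - RR t → L' = 1 / s2 - RR (t + T) → L0 ≤ L' →
  (1 / s2) ^ (1 / 20 : ℝ) ≤ RR t → RR (t + T) - RR t ≤ L ^ c + L ^ (2 * e0) + 1 →
  L ^ c ≤ RR (t + T) - RR t → 4 * (t + T) ≤ N0 → Good W t (Real.exp (L ^ c)) w →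
  L ^ (20 * c) / 4 ≤ b → b ≤ RR t →
  P.real {ω | ¬ Good W (t + T) (Real.exp b) (nw W T w (cfg η ω))} ≤ Real.exp (-(b ^ (1 / 20 : ℝ)))) →
  (∀ C0 κ θ1 : ℝ, 1 ≤ C0 → 0 ≤ κ → 0 ≤ θ1 → ∃ C : ℝ, 1 ≤ C ∧
  ∀ (N0 M : ℕ) [NeZero M] (W : Wlk (ZMod M × ZMod M) C0 N0), IsTor W →
  ∀ (Ω : Type) [MeasurableSpace Ω] (P : Measure Ω) [IsProbabilityMeasure P] (s2 : ℝ)
    (η : ℕ → ZMod M × ZMod M → Ω → ℝ) (w : ZMod M × ZMod M → ℝ) (t N : ℕ) (b : ℝ), 0 < s2 → s2 ≤ 1 / C →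
  NoiseI P s2 κ η → (1 / s2) ^ (1 / 20 : ℝ) ≤ RR t → t ≤ N → N ≤ N0 → -θ1 ≤ 1 / s2 - RR N →
  0 ≤ b → b ≤ RR t / 4 → Good W t (Real.exp b) w →
  Sq P (fun ω => lgZ W (N - t) w (cfg η ω)) (C * (1 + b + |1 / s2 - RR t|) ^ 17)) →
  ∀ C0 κ θ1 c : ℝ, 1 ≤ C0 → 0 ≤ κ → 0 ≤ θ1 → e0 ≤ c → c ≤ 1 / 800 → ∃ L0 : ℝ, 1 ≤ L0 ∧
  ∀ (N0 M : ℕ) [NeZero M] (W : Wlk (ZMod M × ZMod M) C0 N0), IsTor W →
  ∀ (Ω : Type) [MeasurableSpace Ω] (P : Measure Ω) [IsProbabilityMeasure P] (s2 : ℝ)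
    (η : ℕ → ZMod M × ZMod M → Ω → ℝ) (w : ZMod M × ZMod M → ℝ) (t T N : ℕ) (L L' : ℝ), 0 < s2 →
  NoiseI P s2 κ η → L = 1 / s2 - RR t → L' = 1 / s2 - RR (t + T) → L0 ≤ L' →
  (1 / s2) ^ (1 / 20 : ℝ) ≤ RR t → RR (t + T) - RR t ≤ L ^ c + L ^ (2 * e0) + 1 →
  L ^ c ≤ RR (t + T) - RR t → t + T ≤ N → 4 * N ≤ N0 → -θ1 ≤ 1 / s2 - RR N →
  Good W t (Real.exp (L ^ c)) w →
  Sq P (fun ω => {w' | ¬ Good W (t + T) (Real.exp (L' ^ (20 * c))) w'}.indicator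
    (fun w' => lgZ W (N - (t + T)) w' (cfg η ω)) (nw W T w (sft (N - (t + T)) (cfg η ω)))) (L ^ (-2 : ℝ))

end Pool.Agent.H964.CW
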