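import Pool.Agent.H964.QC.Stm2

/-! # Project CW (helper964): the planar directed polymer in the critical window

Definitions for the lower tail estimate: walks with drift in the first coordinate on the torus, killed
outside of moving tubes. -/

set_option autoImplicit false

open MeasureTheory ProbabilityTheory Filter Finset

namespace Pool.Agent.H964.CW

open Pool.Agent.H964.QC

/-- the torus: `W` is the product of two walks on the cycle `ZMod M`, `M = 4 N0 + 4` -/
structure IsTor {C0 : ℝ} {N0 M : ℕ} [NeZero M] (W : Wlk (ZMod M × ZMod M) C0 N0) : Prop where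
  hM : M = 4 * N0 + 4
  K_eq : ∀ n x y, W.K n x y = q1 M n (y.1 - x.1) * q1 M n (y.2 - x.2)
  d_eq : ∀ x, W.d x = (x.1.valMinAbs : ℝ) ^ 2 + (x.2.valMinAbs : ℝ) ^ 2
  cls_rng : ∀ (t : ℕ) x, W.cls t x → |x.1.valMinAbs| ≤ t ∧ |x.2.valMinAbs| ≤ t
  cls_par : ∀ (t : ℕ) x y, W.cls t x → W.cls t y →
    ∃ i j : ℤ, x.1.valMinAbs - y.1.valMinAbs = 2 * i ∧ x.2.valMinAbs - y.2.valMinAbs = 2 * j

/-- sign of a step of the first coordinate -/
noncomputable def sg {M : ℕ} (u : ZMod M) : ℝ := if u = 1 then 1 else -1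

/-- the first coordinate as an integer -/
def X1 {M : ℕ} (x : ZMod M × ZMod M) : ℤ := x.1.valMinAbs

/-- the second coordinate as an integer -/
def X2 {M : ℕ} (x : ZMod M × ZMod M) : ℤ := x.2.valMinAbs

variable {C0 : ℝ} {N0 M : ℕ} [NeZero M]

/-- one step with drift `a` in the first coordinate -/
noncomputable def ka (W : Wlk (ZMod M × ZMod M) C0 N0) (a : ℝ) (y z : ZMod M × ZMod M) : ℝ :=
  W.K 1 y z * (1 + a * sg (z.1 - y.1))

/-- partition functions with drift `A` and killing `χ` (both indexed by the remaining time) -/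
noncomputable def dz (W : Wlk (ZMod M × ZMod M) C0 N0) (A : ℕ → ℝ) (χ : ℕ → ZMod M × ZMod M → ℝ)
    (x : ℕ → ZMod M × ZMod M → ℝ) : ℕ → ZMod M × ZMod M → ℝ
  | 0, _ => 1
  | (j + 1), y => ∑ z, ka W (A (j + 1)) y z * χ j z * ((1 + x (j + 1) z) * dz W A χ x j z)

/-- free evolution with drift of the weight `u`: `n` steps, starting with `T` remaining steps -/
noncomputable def dw (W : Wlk (ZMod M × ZMod M) C0 N0) (A : ℕ → ℝ) (T : ℕ) (u : ZMod M × ZMod M → ℝ) :
    ℕ → ZMod M × ZMod M → ℝ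
  | 0 => u
  | (n + 1) => fun z => ∑ y, dw W A T u n y * ka W (A (T - n)) y z

/-- the weight `w` restricted to a strip -/
noncomputable def strip (w : ZMod M × ZMod M → ℝ) (lo hi : ℤ) (x : ZMod M × ZMod M) : ℝ :=
  if lo ≤ X1 x ∧ X1 x ≤ hi then w x else 0

/-- the noise with an inverse moment -/
def NoiseI {V : Type} [Fintype V] [DecidableEq V] {Ω : Type} [MeasurableSpace Ω] (P : Measure Ω) (s2 κ : ℝ)
    (η : ℕ → V → Ω → ℝ) : Prop :=
  Noise P s2 κ η ∧ ∀ n v, Integrable (fun ω => (1 + η n v ω)⁻¹) P ∧ ∫ ω, (1 + η n v ω)⁻¹ ∂P ≤ 2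

/-- bound for the overlaps of the weight `u` along a walk with drift at most `a0` -/
noncomputable def bb (W : Wlk (ZMod M × ZMod M) C0 N0) (a0 : ℝ) (u : ZMod M × ZMod M → ℝ) (n : ℕ) : ℝ :=
  min ((∑ z, u z) ^ 2 * rr n) (ov W u ((n + 1) / 2) + (2 * a0) ^ n * ∑ z, (u z) ^ 2)

end Pool.Agent.H964.CW
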