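import Pool.Agent.H964.QC.Mq
import Pool.Agent.H964.CW.Stm3
import Pool.Agent.H289.CW.TOR2
import Pool.Agent.H92.CW.NB
import Pool.Agent.H661.CW.DZB
import Pool.Agent.H231.CW.DSM
import Pool.Agent.H224.CW.CMP
import Pool.Agent.H784.CW.SUR
import Pool.Agent.H314.CW.PRD
import Pool.Agent.H665.CW.PZ
import Pool.Agent.H405.CW.LTC
import Pool.Agent.H102.CW.QNT
import Pool.Agent.H734.CW.BOX
import Pool.Agent.H213.CW.SWP
import Pool.Agent.H200.CW.LTS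
import Pool.Agent.H230.CW.UUC
import Pool.Agent.H549.CW.LTB1
import Pool.Agent.H695.CW.PTH
import Pool.Agent.H249.CW.LTP1
import Pool.Agent.H52.CW.LAW2
import Pool.Agent.H280.CW.HHg
import Pool.Agent.H331.CW.THg
import Pool.Agent.H282.CW.PHg
import Pool.Agent.H155.CW.F4g
import Pool.Agent.H195.CW.GSg
import Pool.Agent.H350.CW.BC2
import Pool.Agent.H224.CW.MK
import Pool.Agent.H92.CW.TLI
import Pool.Agent.H200.CW.LG
import Pool.Agent.H120.CW.TRJ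
import Pool.Agent.H357.CW.WL3
import Pool.Agent.H36.CW.DE
import Pool.Agent.H282.CW.WLD
import Pool.Agent.H860.CW.STP
import Pool.Agent.H719.CW.FB
import Pool.Agent.H790.CW.FINF
import Pool.Agent.H922.CW.AP1
import Pool.Agent.H553.CW.BK1
import Pool.Agent.H707.CW.BK21
import Pool.Agent.H286.CW.VI
import Pool.Agent.H155.CW.FST
import Pool.Agent.H784.CW.MBK
import Pool.Agent.H597.CW.CHA

/-! # Project CW (helper964): assembly -/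

set_option autoImplicit false

open MeasureTheory ProbabilityTheory Filter Finset

namespace Pool.Agent.H964.CW

open Pool.Agent.H964.QC

theorem b_TORA : S_TORA := Pool.Agent.H81.QC.t_TORA
theorem b_TOR2 : S_TOR2 := Pool.Agent.H289.CW.t_TOR2
theorem b_NB : S_NB := Pool.Agent.H92.CW.t_NB
theorem b_DZB : S_DZB := Pool.Agent.H661.CW.t_DZB
theorem b_DSM : S_DSM := Pool.Agent.H231.CW.t_DSM
theorem b_CMP : S_CMP := Pool.Agent.H224.CW.t_CMP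
theorem b_SUR : S_SUR := Pool.Agent.H784.CW.t_SUR
theorem b_PRD : S_PRD := Pool.Agent.H314.CW.t_PRD
theorem b_PZ : S_PZ := Pool.Agent.H665.CW.t_PZ
theorem b_LTC : S_LTC := Pool.Agent.H405.CW.t_LTC
theorem b_QNT : S_QNT := Pool.Agent.H102.CW.t_QNT
theorem b_BOX : S_BOX := Pool.Agent.H734.CW.t_BOX
theorem b_SWP : S_SWP := Pool.Agent.H213.CW.t_SWP
theorem b_LTS : S_LTS := Pool.Agent.H200.CW.t_LTS
theorem b_UUC : S_UUC := Pool.Agent.H230.CW.t_UUC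
theorem b_LTB : S_LTB := Pool.Agent.H549.CW.t_LTB1 a_RR a_UU b_UUC
  (b_LTS b_LTC b_DZB b_DSM b_NB a_IND a_MEAS b_CMP b_SUR b_PRD b_PZ b_QNT b_BOX b_SWP a_RR b_TORA a_OV)
theorem b_PTH : S_PTH := Pool.Agent.H695.CW.t_PTH
theorem b_LTP : S_LTP := Pool.Agent.H249.CW.t_LTP1 b_LTC b_DZB b_DSM b_NB a_IND a_MEAS b_CMP b_SUR b_PRD b_PZ
  a_RR a_UU b_UUC b_PTH b_TORA a_OV
theorem b_LAW2 : S_LAW2 := Pool.Agent.H52.CW.t_LAW2
theorem b_HHg : S_HHg := Pool.Agent.H280.CW.t_HHg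
theorem b_THg : S_THg := Pool.Agent.H331.CW.t_THg
theorem b_PHg : S_PHg := Pool.Agent.H282.CW.t_PHg
theorem b_F4g : S_F4g := Pool.Agent.H155.CW.t_F4g
theorem b_GSg : S_GSg := Pool.Agent.H195.CW.t_GSg
theorem b_BC2 : S_BC2 := Pool.Agent.H350.CW.t_BC2
theorem b_MK : S_MK := Pool.Agent.H224.CW.t_MK a_MEAS a_IND a_FRZ a_DUAL
theorem b_TLI : S_TLI := Pool.Agent.H92.CW.t_TLI
theorem b_LG : S_LG := Pool.Agent.H200.CW.t_LG
theorem b_TRJ : S_TRJ := Pool.Agent.H120.CW.t_TRJ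
theorem b_STP : S_STP := Pool.Agent.H860.CW.t_STP b_MK a_MEAS a_IND a_FRZ a_DUAL

/-- AP from the task AP1 -/
theorem c_AP (h : S_AP1) : S_AP := h b_LTP a_MEAS a_IND a_RR

theorem c_BK2 (hAP : S_AP) (h : S_BK1) (h' : S_BK21) : S_BK2 :=
  h' b_LTB hAP b_TLI b_LG a_MEAS a_M2 a_DUAL a_RR a_IND
    (h a_RR a_UU b_HHg a_OV a_GS b_GSg a_B2 b_BC2 b_F4g b_THg b_PHg a_M2 a_MEAS a_DUAL a_CLN a_M4 a_T1 a_T3)

theorem c_GD (h : S_BK1) : P_GD := by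
  intro C0 κ h1 h2
  obtain ⟨C, L0, hC, hL0, h⟩ := h a_RR a_UU b_HHg a_OV a_GS b_GSg a_B2 b_BC2 b_F4g b_THg b_PHg a_M2 a_MEAS
    a_DUAL a_CLN a_M4 a_T1 a_T3 C0 κ h1 h2
  refine ⟨L0, hL0, ?_⟩
  intro N0 M _ W hT Ω _ P _ s2 η w t T L L' hs hN hL hL' h0 h3 h4 h5 h6 h7
  exact ((h (ZMod M × ZMod M) N0 W Ω P s2 η w t T L L' hs hN.1 hL hL' h0 h3 h4 h5 h6).2.2 h7).2

theorem c_MBK (hAP : S_AP) (h : S_MBK) : P_MBK :=
  h b_LTB hAP b_TLI a_MEAS a_M2 a_DUAL a_RR a_UU a_OV a_GS b_BC2 a_CLN a_B2 a_IND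

theorem c_DE (hAP : S_AP) : P_DE := Pool.Agent.H36.CW.t_DE b_LTB hAP b_TLI a_MEAS a_RR a_IND

theorem c_WLD (hAP : S_AP) : P_WLD :=
  Pool.Agent.H282.CW.WLD.t_WLD b_MK a_GM hAP a_MEAS a_RR
    (Pool.Agent.H357.CW.t_WL3 b_LTB a_MEAS a_DUAL a_RR a_OV a_GS b_BC2 a_CLN a_M2)
    (Pool.Agent.H36.CW.t_DE b_LTB hAP b_TLI a_MEAS a_RR a_IND)

theorem c_VI (hAP : S_AP) (hM : S_MBK) (h : S_VI) : P_VI :=
  h b_MK a_GM a_MEAS a_IND a_DUAL a_RR (c_MBK hAP hM) (c_DE hAP) (c_WLD hAP)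

theorem c_CHA (hAP : S_AP) (hB1 : S_BK1) (hB2 : S_BK21) (hM : S_MBK) (hV : S_VI) (h : S_CHA) : P_CHA :=
  h b_STP a_GM a_MEAS a_IND a_RR a_DUAL (c_BK2 hAP hB1 hB2) (c_GD hB1) (c_DE hAP) (c_WLD hAP) (c_VI hAP hM hV)

theorem c_FB (hAP : S_AP) : P_FB :=
  Pool.Agent.H719.CW.t_FB b_LTP hAP b_TLI a_MEAS a_M2 a_DUAL a_RR a_UU a_OV b_BC2 a_CLN a_IND

theorem c_MQ2 (hAP1 : S_AP1) (hB1 : S_BK1) (hB2 : S_BK21) (hM : S_MBK) (hV : S_VI) (hC : S_CHA)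
    (h : S_FST) : S_MQ2 :=
  h b_MK a_GM a_MEAS a_IND a_DUAL a_RR b_TRJ (c_AP hAP1) (c_FB (c_AP hAP1))
    (c_CHA (c_AP hAP1) hB1 hB2 hM hV hC)

theorem d_AP : S_AP := c_AP Pool.Agent.H922.CW.t_AP1

/-- the main theorem for a general noise -/
theorem d_MQ2 : S_MQ2 :=
  c_MQ2 Pool.Agent.H922.CW.t_AP1 Pool.Agent.H553.CW.t_BK1 Pool.Agent.H707.CW.t_BK21 Pool.Agent.H784.CW.t_MBK
    Pool.Agent.H286.CW.t_VI (Pool.Agent.H597.CW.t_CHA b_MK) Pool.Agent.H155.CW.t_FST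

end Pool.Agent.H964.CW
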